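import Pool.Agent.H91.LF.Defs

/-!
[A2] The averaged two point Chowla conjecture at every scale, from the uniform bound for short
exponential sums.
-/

set_option autoImplicit false

open Finset Filter Topology

namespace Pool.Agent.H21.LF

open Pool.Agent.H91.LF
open Pool.Agent.H24.MR (lam)

/-- the exponential `e (x)` -/
noncomputable def ex (x : ℝ) : ℂ := Complex.exp (2 * Real.pi * Complex.I * x)

lemma ex_add (x y : ℝ) : ex (x + y) = ex x * ex y := by
  unfold ex
  rw [← Complex.exp_add]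
  congr 1
  push_cast
  ring

lemma ex_zero : ex 0 = 1 := by simp [ex]

lemma ex_conj (x : ℝ) : (starRingEnd ℂ) (ex x) = ex (-x) := by
  unfold ex
  rw [← Complex.exp_conj]
  congr 1
  simp only [map_mul, Complex.conj_I, Complex.conj_ofReal, Complex.ofReal_neg, map_ofNat]
  ring

lemma ex_nat_mul (k : ℕ) (x : ℝ) : ex (k * x) = ex x ^ k := by
  unfold ex
  rw [← Complex.exp_nat_mul]
  congr 1
  push_cast
  ring

lemma norm_ex (x : ℝ) : ‖ex x‖ = 1 := by
  unfold ex
  rw [Complex.norm_exp]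
  simp

/-- orthogonality -/
lemma orth (L : ℕ) (hL : 0 < L) (d : ℤ) (hd : |d| < L) :
    ∑ k ∈ Finset.range L, ex ((k : ℝ) * ((d : ℝ) / L)) = if d = 0 then (L : ℂ) else 0 := by
  have hL' : (L : ℝ) ≠ 0 := by positivity
  by_cases h : d = 0
  · subst h
    simp [ex_zero]
  · rw [if_neg h]
    simp only [ex_nat_mul]
    set z := ex ((d : ℝ) / L) with hz
    have hzL : z ^ L = 1 := by
      rw [hz, ← ex_nat_mul, mul_div_cancel₀ _ hL']
      unfold ex
      rw [Complex.exp_eq_one_iff]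
      exact ⟨d, by push_cast; ring⟩
    have hz1 : z ≠ 1 := by
      intro h1
      rw [hz] at h1
      unfold ex at h1
      rw [Complex.exp_eq_one_iff] at h1
      obtain ⟨n, hn⟩ := h1
      have hpi : (2 * (Real.pi : ℂ) * Complex.I) ≠ 0 := Complex.two_pi_I_ne_zero
      have h2 : (((d : ℝ) / L : ℝ) : ℂ) = n := by
        have : (2 * (Real.pi : ℂ) * Complex.I) * (((d : ℝ) / L : ℝ) : ℂ) =
            (2 * (Real.pi : ℂ) * Complex.I) * n := by rw [hn]; ring
        exact mul_left_cancel₀ hpi this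
      have h3 : (d : ℝ) / L = n := by exact_mod_cast h2
      rw [div_eq_iff hL'] at h3
      have h4 : d = n * L := by exact_mod_cast h3
      have h5 : n = 0 := by
        by_contra hn0
        have : (1 : ℤ) ≤ |n| := Int.one_le_abs hn0
        rw [h4, abs_mul, Nat.abs_cast] at hd
        nlinarith
      rw [h5] at h4
      simp at h4
      exact h h4
    have := geom_sum_mul z L
    rw [hzL, sub_self] at this
    exact (mul_eq_zero.1 this).resolve_right (sub_ne_zero.2 hz1)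

section
variable (f : ℕ → ℝ) (N M : ℕ)

/-- the correlations -/
noncomputable def Rr (y z : ℕ) : ℝ := ∑ n ∈ Finset.range N, f (n + y) * f (n + z)

/-- the power -/
noncomputable def Tt (β : ℝ) : ℝ :=
  ∑ n ∈ Finset.range N, ‖∑ y ∈ Finset.range M, (f (n + y) : ℂ) * ex (β * y)‖ ^ 2

/-- the sums of correlations -/
noncomputable def cc (h : ℕ) : ℝ := ∑ z ∈ Finset.range (M - h), Rr f N (z + h) z

lemma Tt_nonneg (β : ℝ) : 0 ≤ Tt f N M β := Finset.sum_nonneg fun _ _ => sq_nonneg _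

lemma Tt_eq (β : ℝ) : (Tt f N M β : ℂ) =
    ∑ y ∈ Finset.range M, ∑ z ∈ Finset.range M, (Rr f N y z : ℂ) * ex (β * (y - z)) := by
  unfold Tt Rr
  push_cast
  have h1 : ∀ n : ℕ, ((‖∑ y ∈ Finset.range M, (f (n + y) : ℂ) * ex (β * y)‖ : ℂ)) ^ 2 =
      ∑ y ∈ Finset.range M, ∑ z ∈ Finset.range M,
        (f (n + y) : ℂ) * (f (n + z)) * ex (β * (y - z)) := by
    intro n
    rw [← Complex.mul_conj', map_sum, Finset.sum_mul_sum]
    refine Finset.sum_congr rfl fun y _ => Finset.sum_congr rfl fun z _ => ?_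
    rw [map_mul, Complex.conj_ofReal, ex_conj]
    have : ex (β * (y - z)) = ex (β * y) * ex (-(β * z)) := by
      rw [← ex_add]; congr 1; ring
    rw [this]; ring
  simp only [h1]
  rw [Finset.sum_comm]
  refine Finset.sum_congr rfl fun y _ => ?_
  rw [Finset.sum_comm]
  refine Finset.sum_congr rfl fun z _ => ?_
  rw [Finset.sum_mul]

/-- Fourier coefficients of the power -/
lemma Tt_coef (h : ℕ) (hh : h < M) :
    ∑ k ∈ Finset.range (2 * M), (Tt f N M ((k : ℝ) / (2 * M : ℕ)) : ℂ) *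
      ex (-((k : ℝ) * ((h : ℝ) / (2 * M : ℕ)))) = (2 * M : ℕ) * (cc f N M h : ℂ) := by
  have hM : 0 < M := by omega
  simp only [Tt_eq, Finset.sum_mul]
  rw [Finset.sum_comm]
  have h1 : ∀ y ∈ Finset.range M, ∑ k ∈ Finset.range (2 * M), ∑ z ∈ Finset.range M,
      (Rr f N y z : ℂ) * ex ((k : ℝ) / (2 * M : ℕ) * (y - z)) *
        ex (-((k : ℝ) * ((h : ℝ) / (2 * M : ℕ)))) =
      ∑ z ∈ Finset.range M, (Rr f N y z : ℂ) * (if y = z + h then ((2 * M : ℕ) : ℂ) else 0) := by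
    intro y hy
    rw [Finset.sum_comm]
    refine Finset.sum_congr rfl fun z hz => ?_
    rw [Finset.mem_range] at hy hz
    have h2 := orth (2 * M) (by omega) ((y : ℤ) - z - h) (by
      rw [abs_lt]; constructor <;> push_cast <;> omega)
    have h3 : ((y : ℤ) - z - h = 0) ↔ y = z + h := by omega
    simp only [h3] at h2
    rw [← h2, Finset.mul_sum]
    refine Finset.sum_congr rfl fun k _ => ?_
    rw [mul_assoc, ← ex_add]
    congr 2
    push_cast
    ring
  rw [Finset.sum_congr rfl h1, Finset.sum_comm]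
  unfold cc
  push_cast
  rw [Finset.mul_sum]
  have h4 : ∀ z ∈ Finset.range M, ∑ y ∈ Finset.range M,
      (Rr f N y z : ℂ) * (if y = z + h then (2 * (M : ℂ)) else 0) =
      if z + h < M then 2 * (M : ℂ) * (Rr f N (z + h) z : ℂ) else 0 := by
    intro z _
    simp only [mul_ite, mul_zero]
    rw [Finset.sum_ite_eq']
    simp only [Finset.mem_range]
    split_ifs <;> ring
  rw [Finset.sum_congr rfl h4, ← Finset.sum_filter]
  refine Finset.sum_congr ?_ fun _ _ => rfl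
  ext z
  simp only [Finset.mem_filter, Finset.mem_range]
  omega

/-- Bessel's inequality: the squares of the Fourier coefficients -/
lemma sum_cc_sq_le (H : ℕ) (hH : H ≤ M) (B : ℝ) (hB : ∀ β, Tt f N M β ≤ B) :
    ∑ h ∈ Finset.range H, (cc f N M h) ^ 2 ≤ B * cc f N M 0 := by
  rcases Nat.eq_zero_or_pos M with hM | hM
  · subst hM
    have : H = 0 := by omega
    subst this
    simp [cc]
  set L : ℕ := 2 * M with hL
  have hLpos : (0 : ℝ) < L := by positivity
  set T : ℕ → ℝ := fun k => Tt f N M ((k : ℝ) / L) with hT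
  have hT0 : ∀ k, 0 ≤ T k := fun k => Tt_nonneg f N M _
  set E : ℝ := ∑ h ∈ Finset.range H, (cc f N M h) ^ 2 with hE
  have hE0 : 0 ≤ E := Finset.sum_nonneg fun _ _ => sq_nonneg _
  set Q : ℕ → ℂ := fun k => ∑ h ∈ Finset.range H,
    (cc f N M h : ℂ) * ex (-((k : ℝ) * ((h : ℝ) / L))) with hQ
  have hcoef : ∀ h, h < M → ∑ k ∈ Finset.range L, (T k : ℂ) *
      ex (-((k : ℝ) * ((h : ℝ) / L))) = (L : ℂ) * (cc f N M h : ℂ) := by
    intro h hh
    have := Tt_coef f N M h hh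
    simpa [hT, hL] using this
  -- the sum of the powers
  have hTsum : ∑ k ∈ Finset.range L, T k = L * cc f N M 0 := by
    have := hcoef 0 hM
    simp only [Nat.cast_zero, zero_div, mul_zero, neg_zero, ex_zero, mul_one] at this
    exact_mod_cast this
  have h1 : ∑ k ∈ Finset.range L, (T k : ℂ) * Q k = (L : ℂ) * (E : ℂ) := by
    simp only [hQ, Finset.mul_sum]
    rw [Finset.sum_comm]
    have : ∀ h ∈ Finset.range H, ∑ k ∈ Finset.range L,
        (T k : ℂ) * ((cc f N M h : ℂ) * ex (-((k : ℝ) * ((h : ℝ) / L)))) =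
        (L : ℂ) * (cc f N M h : ℂ) ^ 2 := by
      intro h hh
      rw [Finset.mem_range] at hh
      rw [sq, ← mul_assoc, ← hcoef h (by omega), Finset.sum_mul]
      refine Finset.sum_congr rfl fun k _ => ?_
      ring
    rw [Finset.sum_congr rfl this, ← Finset.mul_sum, hE]
    push_cast
    rfl
  have h2 : ∑ k ∈ Finset.range L, ‖Q k‖ ^ 2 = L * E := by
    have h3 : ∀ k, ((‖Q k‖ : ℂ)) ^ 2 = ∑ h ∈ Finset.range H, ∑ h' ∈ Finset.range H,
        (cc f N M h : ℂ) * (cc f N M h' : ℂ) *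
          ex ((k : ℝ) * ((((h' : ℤ) - h : ℤ) : ℝ) / L)) := by
      intro k
      rw [← Complex.mul_conj', hQ]
      simp only
      rw [map_sum, Finset.sum_mul_sum]
      refine Finset.sum_congr rfl fun h _ => Finset.sum_congr rfl fun h' _ => ?_
      rw [map_mul, Complex.conj_ofReal, ex_conj]
      have : ex ((k : ℝ) * ((((h' : ℤ) - h : ℤ) : ℝ) / L)) =
          ex (-((k : ℝ) * ((h : ℝ) / L))) * ex (- -((k : ℝ) * ((h' : ℝ) / L))) := by
        rw [← ex_add]
        congr 1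
        push_cast
        ring
      rw [this]
      ring
    have h4 : ((∑ k ∈ Finset.range L, ‖Q k‖ ^ 2 : ℝ) : ℂ) = (L * E : ℝ) := by
      push_cast
      simp only [h3]
      rw [Finset.sum_comm]
      have : ∀ h ∈ Finset.range H, ∑ k ∈ Finset.range L, ∑ h' ∈ Finset.range H,
          (cc f N M h : ℂ) * (cc f N M h' : ℂ) *
            ex ((k : ℝ) * ((((h' : ℤ) - h : ℤ) : ℝ) / L)) = (L : ℂ) * (cc f N M h : ℂ) ^ 2 := by
        intro h hh
        rw [Finset.mem_range] at hh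
        rw [Finset.sum_comm]
        have h5 : ∀ h' ∈ Finset.range H, ∑ k ∈ Finset.range L,
            (cc f N M h : ℂ) * (cc f N M h' : ℂ) *
              ex ((k : ℝ) * ((((h' : ℤ) - h : ℤ) : ℝ) / L)) =
            if h' = h then (L : ℂ) * (cc f N M h : ℂ) ^ 2 else 0 := by
          intro h' hh'
          rw [Finset.mem_range] at hh'
          rw [← Finset.mul_sum, orth L (by omega) _ (by rw [abs_lt]; constructor <;> omega)]
          by_cases hhh : h' = h
          · subst hhh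
            simp
            ring
          · rw [if_neg hhh, if_neg (by omega), mul_zero]
        rw [Finset.sum_congr rfl h5, Finset.sum_ite_eq' , if_pos (Finset.mem_range.2 hh)]
      rw [Finset.sum_congr rfl this, ← Finset.mul_sum, hE]
      push_cast
      rfl
    exact_mod_cast h4
  -- Cauchy-Schwarz
  have h3 : L * E ≤ ∑ k ∈ Finset.range L, T k * ‖Q k‖ := by
    have : ‖(L : ℂ) * (E : ℂ)‖ = L * E := by
      rw [norm_mul, Complex.norm_natCast, Complex.norm_real, Real.norm_of_nonneg hE0]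
    rw [← this, ← h1]
    refine (norm_sum_le _ _).trans (Finset.sum_le_sum fun k _ => ?_)
    rw [norm_mul, Complex.norm_real, Real.norm_of_nonneg (hT0 k)]
  have h4 : (∑ k ∈ Finset.range L, T k * ‖Q k‖) ^ 2 ≤
      (∑ k ∈ Finset.range L, T k ^ 2) * ∑ k ∈ Finset.range L, ‖Q k‖ ^ 2 :=
    Finset.sum_mul_sq_le_sq_mul_sq _ _ _
  have h5 : ∑ k ∈ Finset.range L, T k ^ 2 ≤ B * (L * cc f N M 0) := by
    rw [← hTsum, Finset.mul_sum]
    refine Finset.sum_le_sum fun k _ => ?_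
    rw [sq]
    exact mul_le_mul_of_nonneg_right (hB _) (hT0 k)
  have h6 : (L * E) ^ 2 ≤ (B * (L * cc f N M 0)) * (L * E) := by
    calc (L * E) ^ 2 ≤ (∑ k ∈ Finset.range L, T k * ‖Q k‖) ^ 2 := by
          apply pow_le_pow_left₀ (by positivity) h3
      _ ≤ _ := h4
      _ ≤ _ := by
          rw [h2]
          exact mul_le_mul_of_nonneg_right h5 (by positivity)
  rcases hE0.eq_or_lt with h0 | h0
  · rw [← h0]
    have hB0 : 0 ≤ B := (Tt_nonneg f N M 0).trans (hB 0)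
    have : 0 ≤ cc f N M 0 := by
      have : 0 ≤ (L : ℝ) * cc f N M 0 := by rw [← hTsum]; exact Finset.sum_nonneg fun k _ => hT0 k
      exact nonneg_of_mul_nonneg_right this hLpos
    positivity
  · have h7 : (L * E) * (L * E) ≤ (B * (L * cc f N M 0)) * (L * E) := by nlinarith
    have h8 : L * E ≤ B * (L * cc f N M 0) := le_of_mul_le_mul_right h7 (by positivity)
    have h9 : L * E ≤ L * (B * cc f N M 0) := by linarith
    exact le_of_mul_le_mul_left h9 hLpos

end

lemma lam_sq (n : ℕ) : lam n * lam n = 1 := by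
  unfold lam
  rw [← pow_add, ← two_mul, pow_mul]
  simp

lemma abs_lam (n : ℕ) : |lam n| = 1 := by
  unfold lam
  rw [abs_pow]
  simp

lemma abs_lz_le (n : ℤ) : |lz n| ≤ 1 := by
  unfold lz
  split_ifs
  · simp
  · rw [abs_lam]

lemma lz_nat (n : ℕ) (hn : n ≠ 0) : lz n = lam n := by
  unfold lz
  rw [if_neg (by exact_mod_cast hn)]
  simp

/-- shift of a sum over an initial segment -/
lemma shift_le (g : ℕ → ℝ) (hg : ∀ n, |g n| ≤ 1) (N z : ℕ) :
    |∑ n ∈ Finset.range N, g (n + z) - ∑ n ∈ Finset.range N, g n| ≤ 2 * z := by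
  induction z with
  | zero => simp
  | succ z ih =>
    have h1 : ∑ n ∈ Finset.range N, g (n + (z + 1)) =
        ∑ n ∈ Finset.range N, g (n + z) + (g (N + z) - g z) := by
      have h2 := Finset.sum_range_succ (fun n => g (n + z)) N
      have h3 := Finset.sum_range_succ' (fun n => g (n + z)) N
      simp only [Nat.zero_add] at h3
      have h4 : ∀ n, n + 1 + z = n + (z + 1) := fun n => by ring
      simp only [h4] at h3
      linarith
    rw [h1]
    have h5 := hg (N + z)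
    have h6 := hg z
    rw [abs_le] at *
    push_cast
    constructor <;> linarith [h5.1, h5.2, h6.1, h6.2, ih.1, ih.2]

/-- backward shift -/
lemma shift_int (G : ℤ → ℝ) (hG : ∀ n, |G n| ≤ 1) (N d : ℕ) :
    |∑ n ∈ Finset.Icc 1 N, G ((n : ℤ) - d) - ∑ n ∈ Finset.Icc 1 N, G (n : ℤ)| ≤ 2 * d := by
  have hR : ∀ F : ℤ → ℝ, ∑ n ∈ Finset.Icc 1 N, F (n : ℤ) =
      ∑ n ∈ Finset.range N, F ((n : ℤ) + 1) := by
    intro F
    induction N with
    | zero => simp
    | succ N ih =>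
      rw [Finset.sum_range_succ, ← ih, Finset.sum_Icc_succ_top (by omega)]
      push_cast
      rfl
  rw [hR, hR (fun n => G (n - d))]
  induction d with
  | zero => simp
  | succ d ih =>
    have h1 : ∑ n ∈ Finset.range N, G ((n : ℤ) + 1 - (d + 1 : ℕ)) =
        ∑ n ∈ Finset.range N, G ((n : ℤ) + 1 - d) + (G (-d) - G (N - d)) := by
      have h2 := Finset.sum_range_succ (fun n : ℕ => G ((n : ℤ) - d)) N
      have h3 := Finset.sum_range_succ' (fun n : ℕ => G ((n : ℤ) - d)) N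
      simp only [Nat.cast_zero, zero_sub] at h3
      have h4 : ∀ n : ℕ, ((n : ℤ) + 1 - (d + 1 : ℕ)) = (n : ℤ) - d := fun n => by
        push_cast; ring
      simp only [h4]
      push_cast at h3
      linarith
    rw [h1]
    have h5 := hG (-d)
    have h6 := hG (N - d)
    rw [abs_le] at *
    push_cast
    constructor <;> linarith [h5.1, h5.2, h6.1, h6.2, ih.1, ih.2]

/-- the two point sums -/
noncomputable def Aa (N : ℕ) (d : ℤ) : ℝ := ∑ n ∈ Finset.Icc 1 N, lz n * lz (n + d)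

lemma lz_mul_le (a b : ℤ) : |lz a * lz b| ≤ 1 := by
  rw [abs_mul]
  exact mul_le_one₀ (abs_lz_le a) (abs_nonneg _) (abs_lz_le b)

lemma Aa_neg (N d : ℕ) : |Aa N (-d)| ≤ |Aa N d| + 2 * d := by
  have h := shift_int (fun n => lz n * lz (n + d)) (fun n => lz_mul_le _ _) N d
  have h1 : Aa N (-d) = ∑ n ∈ Finset.Icc 1 N, (fun n : ℤ => lz n * lz (n + d)) ((n : ℤ) - d) := by
    unfold Aa
    refine Finset.sum_congr rfl fun n _ => ?_
    simp only [sub_add_cancel]
    rw [← sub_eq_add_neg, mul_comm]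
  have h2 : Aa N d = ∑ n ∈ Finset.Icc 1 N, (fun n : ℤ => lz n * lz (n + d)) (n : ℤ) := rfl
  rw [← h1, ← h2] at h
  have := abs_sub_abs_le_abs_sub (Aa N (-d)) (Aa N d)
  linarith

lemma Aa_eq (N h : ℕ) : Aa N h = ∑ n ∈ Finset.range N, lam (n + 1) * lam (n + 1 + h) := by
  unfold Aa
  induction N with
  | zero => simp
  | succ N ih =>
    rw [Finset.sum_range_succ, ← ih, Finset.sum_Icc_succ_top (by omega)]
    have h1 : lz ((N + 1 : ℕ) : ℤ) = lam (N + 1) := lz_nat _ (by omega)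
    have h2 : lz (((N + 1 : ℕ) : ℤ) + h) = lam (N + 1 + h) := by
      have := lz_nat (N + 1 + h) (by omega)
      push_cast at this ⊢
      exact this
    rw [h1, h2]

/-- comparison of the coefficients with the two point sums -/
lemma cc_cmp (N M h : ℕ) (hh : h < M) :
    |cc lam N M h - (M - h : ℕ) * Aa N h| ≤ M * (2 * M + 2) := by
  unfold cc Rr
  have this : ((M - h : ℕ) : ℝ) * Aa N h =
      ∑ _x ∈ Finset.range (M - h), ∑ n ∈ Finset.range N, lam (n + 1) * lam (n + 1 + h) := by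
    rw [Finset.sum_const, Finset.card_range, nsmul_eq_mul, Aa_eq]
  rw [this, ← Finset.sum_sub_distrib]
  refine (Finset.abs_sum_le_sum_abs _ _).trans ?_
  have hb : ∀ z ∈ Finset.range (M - h), |∑ n ∈ Finset.range N, lam (n + (z + h)) * lam (n + z) -
      ∑ n ∈ Finset.range N, lam (n + 1) * lam (n + 1 + h)| ≤ 2 * M + 2 := by
    intro z hz
    rw [Finset.mem_range] at hz
    have hg : ∀ n, |lam n * lam (n + h)| ≤ 1 := fun n => by
      rw [abs_mul, abs_lam, abs_lam]; norm_num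
    have h1 := shift_le (fun n => lam n * lam (n + h)) hg N z
    have h2 := shift_le (fun n => lam n * lam (n + h)) hg N 1
    have h3 : ∑ n ∈ Finset.range N, lam (n + (z + h)) * lam (n + z) =
        ∑ n ∈ Finset.range N, (fun n => lam n * lam (n + h)) (n + z) := by
      refine Finset.sum_congr rfl fun n _ => ?_
      simp only
      rw [mul_comm, add_assoc]
    rw [h3]
    have hz' : (z : ℝ) ≤ M := by
      have : z ≤ M := by omega
      exact_mod_cast this
    simp only [Nat.cast_one, mul_one] at h2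
    rw [abs_le] at *
    constructor <;> linarith [h1.1, h1.2, h2.1, h2.2]
  refine (Finset.sum_le_sum hb).trans ?_
  rw [Finset.sum_const, Finset.card_range, nsmul_eq_mul]
  have : ((M - h : ℕ) : ℝ) ≤ M := by
    have : M - h ≤ M := by omega
    exact_mod_cast this
  exact mul_le_mul_of_nonneg_right this (by positivity)

lemma cc_zero_le (N M : ℕ) : cc lam N M 0 = M * N := by
  unfold cc Rr
  simp [lam_sq]

/-- the case of positive shifts -/
lemma pos_case (h : StatementSUP) (η : ℝ) (hη : 0 < η) : ∃ H₀ : ℕ, ∀ H, H₀ ≤ H → ∃ N₀ : ℕ,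
    ∀ N, N₀ ≤ N → ∑ s ∈ Finset.range H, (Aa N s) ^ 2 ≤ η * H * (N : ℝ) ^ 2 := by
  obtain ⟨H₀, hH₀⟩ := h (η / 32) (by positivity)
  refine ⟨H₀ + 1, fun H hH => ?_⟩
  obtain ⟨N₀, hN₀⟩ := hH₀ (2 * H) (by omega)
  have hHpos : (1 : ℝ) ≤ H := by
    have : 1 ≤ H := by omega
    exact_mod_cast this
  -- the error term
  obtain ⟨N₁, hN₁⟩ := exists_nat_ge (8 * (4 * (H : ℝ) + 2) ^ 2 * 2 / η)
  refine ⟨max N₀ (N₁ + 1), fun N hN => ?_⟩
  have hN0 : N₀ ≤ N := (le_max_left _ _).trans hN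
  have hN1 : N₁ + 1 ≤ N := (le_max_right _ _).trans hN
  have hNpos : (1 : ℝ) ≤ N := by
    have : 1 ≤ N := by omega
    exact_mod_cast this
  have hB : ∀ β, Tt lam N (2 * H) β ≤ η / 32 * ((2 * H : ℕ) : ℝ) ^ 2 * N := by
    intro β
    have := hN₀ N hN0 β
    unfold Tt ex
    refine le_trans (le_of_eq ?_) this
    refine Finset.sum_congr rfl fun n _ => ?_
    congr 2
    refine Finset.sum_congr rfl fun y _ => ?_
    push_cast
    rfl
  have h1 := sum_cc_sq_le lam N (2 * H) H (by omega) _ hB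
  rw [cc_zero_le] at h1
  have h2 : ∀ s ∈ Finset.range H, (H : ℝ) ^ 2 * (Aa N s) ^ 2 ≤
      2 * (cc lam N (2 * H) s) ^ 2 + 2 * ((2 * H : ℕ) * (2 * (2 * H : ℕ) + 2) : ℝ) ^ 2 := by
    intro s hs
    rw [Finset.mem_range] at hs
    have h3 := cc_cmp N (2 * H) s (by omega)
    have h4 : (H : ℝ) ≤ ((2 * H - s : ℕ) : ℝ) := by
      have : H ≤ 2 * H - s := by omega
      exact_mod_cast this
    set D : ℝ := ((2 * H - s : ℕ) : ℝ) * Aa N s with hD
    set c : ℝ := cc lam N (2 * H) s with hc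
    set E : ℝ := ((2 * H : ℕ) * (2 * (2 * H : ℕ) + 2) : ℝ) with hE
    have h5 : (H : ℝ) ^ 2 * (Aa N s) ^ 2 ≤ D ^ 2 := by
      rw [hD, mul_pow]
      exact mul_le_mul_of_nonneg_right (pow_le_pow_left₀ (by positivity) h4 2) (sq_nonneg _)
    have h6 : (c - D) ^ 2 ≤ E ^ 2 := by
      rw [← sq_abs]
      exact pow_le_pow_left₀ (abs_nonneg _) h3 2
    nlinarith [sq_nonneg (2 * c - D)]
  have h3 : (H : ℝ) ^ 2 * ∑ s ∈ Finset.range H, (Aa N s) ^ 2 ≤
      2 * ∑ s ∈ Finset.range H, (cc lam N (2 * H) s) ^ 2 +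
      H * (2 * ((2 * H : ℕ) * (2 * (2 * H : ℕ) + 2) : ℝ) ^ 2) := by
    rw [Finset.mul_sum, Finset.mul_sum]
    refine (Finset.sum_le_sum h2).trans (le_of_eq ?_)
    rw [Finset.sum_add_distrib, Finset.sum_const, Finset.card_range, nsmul_eq_mul]
  have h4 : (8 * (4 * (H : ℝ) + 2) ^ 2) ≤ η / 2 * (N : ℝ) ^ 2 := by
    rw [div_le_iff₀ hη] at hN₁
    have h5 : (N₁ : ℝ) ≤ N := by
      have : N₁ ≤ N := by omega
      exact_mod_cast this
    have h6 : (N : ℝ) ≤ (N : ℝ) ^ 2 := by nlinarith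
    nlinarith
  push_cast at h1 h3
  have h5 : (H : ℝ) ^ 2 * ∑ s ∈ Finset.range H, (Aa N s) ^ 2 ≤
      (H : ℝ) ^ 2 * (η * H * (N : ℝ) ^ 2) := by
    have h6 : (H : ℝ) * (2 * (2 * (H : ℝ) * (2 * (2 * H) + 2)) ^ 2) ≤
        (H : ℝ) ^ 2 * (η / 2 * H * (N : ℝ) ^ 2) := by
      have : (H : ℝ) * (2 * (2 * (H : ℝ) * (2 * (2 * H) + 2)) ^ 2) =
          (H : ℝ) ^ 3 * (8 * (4 * (H : ℝ) + 2) ^ 2) := by ring
      rw [this]
      have h7 : (H : ℝ) ^ 3 * (8 * (4 * (H : ℝ) + 2) ^ 2) ≤ (H : ℝ) ^ 3 * (η / 2 * (N : ℝ) ^ 2) :=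
        mul_le_mul_of_nonneg_left h4 (by positivity)
      calc _ ≤ _ := h7
        _ = _ := by ring
    nlinarith
  exact le_of_mul_le_mul_left h5 (by positivity)

/-- [A2] -/
theorem a2_main (h : StatementSUP) : StatementA2 := by
  intro c η hc hη
  set C : ℕ := c.natAbs with hC
  have hCpos : 0 < C := Int.natAbs_pos.2 hc
  have hC1 : (1 : ℝ) ≤ C := by exact_mod_cast hCpos
  obtain ⟨H₀, hH₀⟩ := pos_case h (η / (4 * C)) (by positivity)
  refine ⟨H₀ + 1, fun H hH => ?_⟩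
  have hCH : H₀ ≤ C * H := by nlinarith
  obtain ⟨N₀, hN₀⟩ := hH₀ (C * H) hCH
  obtain ⟨N₁, hN₁⟩ := exists_nat_ge (8 * ((C : ℝ) * H) ^ 2 * 2 / η)
  refine ⟨max N₀ (N₁ + 1), fun N hN => ?_⟩
  have hN0 : N₀ ≤ N := (le_max_left _ _).trans hN
  have hN1 : N₁ + 1 ≤ N := (le_max_right _ _).trans hN
  have hNpos : (1 : ℝ) ≤ N := by
    have : 1 ≤ N := by omega
    exact_mod_cast this
  have hHpos : (1 : ℝ) ≤ H := by
    have : 1 ≤ H := by omega
    exact_mod_cast this
  have h1 := hN₀ N hN0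
  -- injection
  have h2 : ∑ s ∈ Finset.range H, (Aa N ((C * s : ℕ) : ℤ)) ^ 2 ≤
      ∑ s ∈ Finset.range (C * H), (Aa N (s : ℤ)) ^ 2 := by
    have hinj : Set.InjOn (fun s : ℕ => C * s) (Finset.range H : Set ℕ) := by
      intro s _ t _ hst
      exact Nat.eq_of_mul_eq_mul_left hCpos hst
    have : ∑ s ∈ Finset.range H, (Aa N ((C * s : ℕ) : ℤ)) ^ 2 =
        ∑ s ∈ (Finset.range H).image (fun s : ℕ => C * s), (Aa N (s : ℤ)) ^ 2 :=
      (Finset.sum_image (f := fun s : ℕ => (Aa N (s : ℤ)) ^ 2) hinj).symm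
    rw [this]
    apply Finset.sum_le_sum_of_subset_of_nonneg
    · intro t ht
      rw [Finset.mem_image] at ht
      obtain ⟨s, hs, rfl⟩ := ht
      rw [Finset.mem_range] at *
      exact Nat.mul_lt_mul_of_pos_left hs hCpos
    · intro _ _ _
      exact sq_nonneg _
  have h3 : ∀ s ∈ Finset.range H, ((Aa N (c * s)) / (N : ℝ)) ^ 2 ≤
      2 * ((Aa N ((C * s : ℕ) : ℤ)) / N) ^ 2 + 8 * ((C : ℝ) * H) ^ 2 / (N : ℝ) ^ 2 := by
    intro s hs
    rw [Finset.mem_range] at hs
    have hs' : (s : ℝ) ≤ H := by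
      have : s ≤ H := hs.le
      exact_mod_cast this
    have h4 : |Aa N (c * s)| ≤ |Aa N ((C * s : ℕ) : ℤ)| + 2 * (C * s : ℕ) := by
      rcases Int.natAbs_eq c with h5 | h5
      · have : c * (s : ℤ) = ((C * s : ℕ) : ℤ) := by rw [h5]; push_cast; simp [hC]
        rw [this]
        have : (0 : ℝ) ≤ 2 * (C * s : ℕ) := by positivity
        linarith
      · have : c * (s : ℤ) = -((C * s : ℕ) : ℤ) := by rw [h5]; push_cast; simp [hC]
        rw [this]
        exact Aa_neg N (C * s)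
    have h6 : (0 : ℝ) ≤ (C * s : ℕ) := by positivity
    have h7 : ((C * s : ℕ) : ℝ) ≤ C * H := by
      push_cast
      exact mul_le_mul_of_nonneg_left hs' (by positivity)
    have h8 : (Aa N (c * s)) ^ 2 ≤ 2 * (Aa N ((C * s : ℕ) : ℤ)) ^ 2 + 8 * ((C : ℝ) * H) ^ 2 := by
      rw [← sq_abs (Aa N (c * s)), ← sq_abs (Aa N ((C * s : ℕ) : ℤ))]
      have h9 : |Aa N (c * s)| ≤ |Aa N ((C * s : ℕ) : ℤ)| + 2 * (C * H) := by linarith
      have h10 := pow_le_pow_left₀ (abs_nonneg _) h9 2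
      nlinarith [sq_nonneg (|Aa N ((C * s : ℕ) : ℤ)| - 2 * ((C : ℝ) * H))]
    rw [div_pow, div_pow]
    have hN2 : (0 : ℝ) < (N : ℝ) ^ 2 := by positivity
    rw [← mul_div_assoc, ← add_div]
    exact div_le_div_of_nonneg_right h8 hN2.le
  have h4 : ∀ s ∈ Finset.range H, ((∑ n ∈ Finset.Icc 1 N, lz n * lz (n + c * s)) / (N : ℝ)) ^ 2 =
      ((Aa N (c * s)) / (N : ℝ)) ^ 2 := fun s _ => rfl
  have hN2 : (0 : ℝ) < (N : ℝ) ^ 2 := by positivity
  have h5 : ∑ s ∈ Finset.range H, ((Aa N ((C * s : ℕ) : ℤ)) / (N : ℝ)) ^ 2 ≤ η / 4 * H := by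
    simp only [div_pow]
    rw [← Finset.sum_div, div_le_iff₀ hN2]
    refine (h2.trans h1).trans (le_of_eq ?_)
    push_cast
    field_simp
  have h6 : 8 * ((C : ℝ) * H) ^ 2 / (N : ℝ) ^ 2 ≤ η / 2 := by
    rw [div_le_iff₀ hη] at hN₁
    have h5 : (N₁ : ℝ) ≤ N := by
      have : N₁ ≤ N := by omega
      exact_mod_cast this
    have h6 : (N : ℝ) ≤ (N : ℝ) ^ 2 := by nlinarith
    rw [div_le_iff₀ hN2]
    nlinarith
  calc ∑ s ∈ Finset.range H, ((∑ n ∈ Finset.Icc 1 N, lz n * lz (n + c * s)) / (N : ℝ)) ^ 2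
      ≤ ∑ s ∈ Finset.range H, (2 * ((Aa N ((C * s : ℕ) : ℤ)) / N) ^ 2 +
          8 * ((C : ℝ) * H) ^ 2 / (N : ℝ) ^ 2) :=
        Finset.sum_le_sum fun s hs => (h4 s hs).le.trans (h3 s hs)
    _ = 2 * ∑ s ∈ Finset.range H, ((Aa N ((C * s : ℕ) : ℤ)) / (N : ℝ)) ^ 2 +
          H * (8 * ((C : ℝ) * H) ^ 2 / (N : ℝ) ^ 2) := by
        rw [Finset.sum_add_distrib, Finset.sum_const, Finset.card_range, nsmul_eq_mul,
          Finset.mul_sum]
    _ ≤ 2 * (η / 4 * H) + H * (η / 2) := by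
        have := mul_le_mul_of_nonneg_left h6 (by positivity : (0 : ℝ) ≤ H)
        linarith
    _ = η * H := by ring

end Pool.Agent.H21.LF
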