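import Pool.Agent.H91.LF.Defs
import Pool.Agent.H24.MR.Top

/-!
[RAT] Rational frequencies on short intervals, from the Matomäki-Radziwiłł theorem in progressions.
-/

set_option autoImplicit false

open Finset Filter Topology

namespace Pool.Agent.H21.LF

open Pool.Agent.H91.LF
open Pool.Agent.H24.MR (lam)

/-- splitting of an initial segment into blocks -/
lemma sum_range_blocks {R : Type*} [AddCommMonoid R] (F : ℕ → R) (W h : ℕ) :
    ∑ y ∈ Finset.range (W * h), F y = ∑ r ∈ Finset.range W, ∑ y ∈ Finset.range h, F (W * y + r) := by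
  rw [Finset.sum_comm]
  induction h with
  | zero => simp
  | succ h ih =>
    rw [Nat.mul_succ, Finset.sum_range_add, ih, Finset.sum_range_succ]

lemma abs_lam1 (n : ℕ) : |lam n| = 1 := by
  unfold lam
  rw [abs_pow]
  simp

/-- [RAT] -/
theorem rat_main : StatementRAT := by
  intro β η hη
  set W : ℕ := β.den with hW
  have hWpos : 0 < W := β.den_pos
  have hW1 : (1 : ℝ) ≤ W := by exact_mod_cast hWpos
  set E : ℕ → ℂ := fun y => Complex.exp (2 * Real.pi * Complex.I * (((β : ℝ) : ℂ) * y)) with hE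
  have hEn : ∀ y, ‖E y‖ = 1 := by
    intro y
    simp only [hE]
    rw [Complex.norm_exp]
    simp
  have hper : ∀ y r, E (W * y + r) = E r := by
    intro y r
    simp only [hE]
    have h1 : (2 * (Real.pi : ℂ) * Complex.I * (((β : ℝ) : ℂ) * ((W * y + r : ℕ) : ℂ))) =
        2 * Real.pi * Complex.I * (((β : ℝ) : ℂ) * r) +
          ((β.num * y : ℤ) : ℂ) * (2 * Real.pi * Complex.I) := by
      have h2 : ((β : ℝ) : ℂ) * W = β.num := by
        have h3 : (β : ℚ) * β.den = β.num := Rat.mul_den_eq_num β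
        have h4 : ((β * β.den : ℚ) : ℂ) = ((β.num : ℚ) : ℂ) := by rw [h3]
        push_cast at h4
        rw [hW]
        push_cast
        exact h4
      push_cast
      have : (2 * (Real.pi : ℂ) * Complex.I * (((β : ℚ) : ℂ) * (W * y + r))) =
        2 * Real.pi * Complex.I * (((β : ℚ) : ℂ) * r) +
          ((((β : ℚ) : ℂ) * W) * y) * (2 * Real.pi * Complex.I) := by ring
      push_cast at h2
      rw [this, h2]
    rw [h1, Complex.exp_add, Complex.exp_int_mul_two_pi_mul_I, mul_one]
  have hmr : ∀ b : ℕ, ∃ h₀ : ℕ, ∀ h, h₀ ≤ h → ∃ N₀ : ℕ, ∀ N, N₀ ≤ N →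
      ∑ z ∈ Finset.range N, (∑ y ∈ Finset.range h, lam (W * (z + y) + b)) ^ 2 ≤
        (η / (16 * W ^ 3)) * h ^ 2 * N := fun b =>
    Pool.Agent.H24.MR.mr W b (η / (16 * W ^ 3)) hWpos (by positivity)
  choose h₀ hh₀ using hmr
  set G₀ : ℕ := (Finset.range W).sup h₀ with hG₀
  obtain ⟨H₁, hH₁⟩ := exists_nat_ge (4 * (W : ℝ) ^ 2 / η)
  refine ⟨max (W * (G₀ + 1)) (H₁ + 1), fun H hH => ?_⟩
  have hHa : W * (G₀ + 1) ≤ H := (le_max_left _ _).trans hH
  have hHb : H₁ + 1 ≤ H := (le_max_right _ _).trans hH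
  set h : ℕ := H / W with hh
  have hhG : G₀ + 1 ≤ h := by
    rw [hh, Nat.le_div_iff_mul_le hWpos, mul_comm]
    exact hHa
  have hWh : W * h ≤ H := Nat.mul_div_le H W
  have hWh2 : H < W * h + W := by
    have := Nat.lt_mul_div_succ H hWpos
    rw [Nat.mul_succ] at this
    exact this
  have hN₀ : ∀ b : ℕ, ∃ N₀ : ℕ, b < W → ∀ N, N₀ ≤ N →
      ∑ z ∈ Finset.range N, (∑ y ∈ Finset.range h, lam (W * (z + y) + b)) ^ 2 ≤
        (η / (16 * W ^ 3)) * h ^ 2 * N := by
    intro b
    by_cases hb : b < W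
    · have : h₀ b ≤ h := by
        have : h₀ b ≤ G₀ := Finset.le_sup (f := h₀) (Finset.mem_range.2 hb)
        omega
      obtain ⟨N₀, hN⟩ := hh₀ b h this
      exact ⟨N₀, fun _ => hN⟩
    · exact ⟨0, fun h => absurd h hb⟩
  choose N₀ hN₀ using hN₀
  set K₀ : ℕ := (Finset.range W).sup N₀ with hK₀
  refine ⟨W * K₀ + 3 * W + 1, fun N hN => ?_⟩
  set N' : ℕ := N / W + 2 with hN'
  have hN'1 : N + W ≤ W * N' := by
    have := Nat.lt_mul_div_succ N hWpos
    rw [hN', Nat.mul_add]
    rw [Nat.mul_succ] at this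
    omega
  have hN'2 : N' ≤ 2 * N := by
    have : N / W ≤ N := Nat.div_le_self N W
    have : 3 * W ≤ 3 * W := le_rfl
    omega
  have hN'3 : ∀ b, b < W → N₀ b ≤ N' := by
    intro b hb
    have h1 : N₀ b ≤ K₀ := Finset.le_sup (f := N₀) (Finset.mem_range.2 hb)
    have h2 : K₀ ≤ N / W := by
      rw [Nat.le_div_iff_mul_le hWpos, mul_comm]
      omega
    omega
  set f : ℕ → ℝ := fun m => (∑ y ∈ Finset.range h, lam (m + W * y)) ^ 2 with hf
  have hf0 : ∀ m, 0 ≤ f m := fun m => sq_nonneg _
  -- the sum of `f` over an initial segment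
  have hfsum : ∑ m ∈ Finset.range (N + W), f m ≤ (η / (16 * W ^ 2)) * h ^ 2 * N' := by
    calc ∑ m ∈ Finset.range (N + W), f m ≤ ∑ m ∈ Finset.range (W * N'), f m :=
          Finset.sum_le_sum_of_subset_of_nonneg (Finset.range_mono hN'1) fun m _ _ => hf0 m
      _ = ∑ b ∈ Finset.range W, ∑ z ∈ Finset.range N', f (W * z + b) := sum_range_blocks f W N'
      _ ≤ ∑ b ∈ Finset.range W, (η / (16 * W ^ 3)) * h ^ 2 * N' := by
          refine Finset.sum_le_sum fun b hb => ?_
          rw [Finset.mem_range] at hb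
          refine le_trans (le_of_eq ?_) (hN₀ b hb N' (hN'3 b hb))
          refine Finset.sum_congr rfl fun z _ => ?_
          simp only [hf]
          congr 1
          refine Finset.sum_congr rfl fun y _ => ?_
          congr 1
          ring
      _ = (η / (16 * W ^ 2)) * h ^ 2 * N' := by
          rw [Finset.sum_const, Finset.card_range, nsmul_eq_mul]
          field_simp
  -- pointwise bound
  have hpt : ∀ n, ‖∑ y ∈ Finset.range H, (lam (n + y) : ℂ) * E y‖ ^ 2 ≤
      2 * (W * ∑ r ∈ Finset.range W, f (n + r)) + 2 * (W : ℝ) ^ 2 := by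
    intro n
    have h1 : ∑ y ∈ Finset.range H, (lam (n + y) : ℂ) * E y =
        ∑ r ∈ Finset.range W, E r * ((∑ y ∈ Finset.range h, lam (n + r + W * y) : ℝ) : ℂ) +
        ∑ y ∈ Finset.range (H - W * h), (lam (n + (W * h + y)) : ℂ) * E (W * h + y) := by
      have h2 : H = W * h + (H - W * h) := by omega
      conv_lhs => rw [h2]
      rw [Finset.sum_range_add, sum_range_blocks]
      congr 1
      refine Finset.sum_congr rfl fun r _ => ?_
      push_cast
      rw [Finset.mul_sum]
      refine Finset.sum_congr rfl fun y _ => ?_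
      rw [hper, mul_comm]
      congr 3
      ring
    have h3 : ‖∑ r ∈ Finset.range W, E r *
        ((∑ y ∈ Finset.range h, lam (n + r + W * y) : ℝ) : ℂ)‖ ≤
        ∑ r ∈ Finset.range W, |∑ y ∈ Finset.range h, lam (n + r + W * y)| := by
      refine (norm_sum_le _ _).trans (Finset.sum_le_sum fun r _ => ?_)
      rw [norm_mul, hEn, one_mul, Complex.norm_real, Real.norm_eq_abs]
    have h4 : ‖∑ y ∈ Finset.range (H - W * h),
        (lam (n + (W * h + y)) : ℂ) * E (W * h + y)‖ ≤ W := by
      refine (norm_sum_le _ _).trans ?_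
      have : ∀ y ∈ Finset.range (H - W * h),
          ‖(lam (n + (W * h + y)) : ℂ) * E (W * h + y)‖ ≤ 1 := by
        intro y _
        rw [norm_mul, hEn, mul_one, Complex.norm_real, Real.norm_eq_abs, abs_lam1]
      refine (Finset.sum_le_sum this).trans ?_
      rw [Finset.sum_const, Finset.card_range, nsmul_eq_mul, mul_one]
      have : H - W * h ≤ W := by omega
      exact_mod_cast this
    have h5 : (∑ r ∈ Finset.range W, |∑ y ∈ Finset.range h, lam (n + r + W * y)|) ^ 2 ≤
        W * ∑ r ∈ Finset.range W, f (n + r) := by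
      have := sq_sum_le_card_mul_sum_sq (s := Finset.range W)
        (f := fun r => |∑ y ∈ Finset.range h, lam (n + r + W * y)|)
      rw [Finset.card_range] at this
      simp only [sq_abs] at this
      exact this
    rw [h1]
    set a := ∑ r ∈ Finset.range W, |∑ y ∈ Finset.range h, lam (n + r + W * y)| with ha
    have ha0 : 0 ≤ a := Finset.sum_nonneg fun _ _ => abs_nonneg _
    have h6 := (norm_add_le _ _).trans (add_le_add h3 h4)
    have h7 := pow_le_pow_left₀ (norm_nonneg _) h6 2
    nlinarith [sq_nonneg (a - W)]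
  have hNN : (N' : ℝ) ≤ 2 * N := by exact_mod_cast hN'2
  have hhH : (h : ℝ) ≤ H := by
    have : h ≤ H := Nat.div_le_self H W
    exact_mod_cast this
  have hHH : 2 * (W : ℝ) ^ 2 ≤ η / 2 * H ^ 2 := by
    rw [div_le_iff₀ hη] at hH₁
    have h1 : (H₁ : ℝ) ≤ H := by
      have : H₁ ≤ H := by omega
      exact_mod_cast this
    have h2 : (1 : ℝ) ≤ H := by
      have : 1 ≤ H := by omega
      exact_mod_cast this
    have h3 : (H : ℝ) ≤ H ^ 2 := by nlinarith
    nlinarith
  calc ∑ n ∈ Finset.range N, ‖∑ y ∈ Finset.range H, (lam (n + y) : ℂ) * E y‖ ^ 2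
      ≤ ∑ n ∈ Finset.range N, (2 * (W * ∑ r ∈ Finset.range W, f (n + r)) + 2 * (W : ℝ) ^ 2) :=
        Finset.sum_le_sum fun n _ => hpt n
    _ = 2 * W * ∑ r ∈ Finset.range W, ∑ n ∈ Finset.range N, f (n + r) +
          N * (2 * (W : ℝ) ^ 2) := by
        rw [Finset.sum_add_distrib, Finset.sum_const, Finset.card_range, nsmul_eq_mul,
          ← Finset.mul_sum, ← Finset.mul_sum, Finset.sum_comm]
        ring
    _ ≤ 2 * W * ∑ r ∈ Finset.range W, ((η / (16 * W ^ 2)) * h ^ 2 * N') +
          N * (η / 2 * H ^ 2) := by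
        have h1 : ∀ r ∈ Finset.range W, ∑ n ∈ Finset.range N, f (n + r) ≤
            (η / (16 * W ^ 2)) * h ^ 2 * N' := by
          intro r hr
          rw [Finset.mem_range] at hr
          refine le_trans ?_ hfsum
          have h2 : ∑ n ∈ Finset.range N, f (n + r) =
              ∑ m ∈ (Finset.range N).image (fun n => n + r), f m :=
            (Finset.sum_image (fun a _ b _ hab => by
              have : a + r = b + r := hab
              omega)).symm
          rw [h2]
          refine Finset.sum_le_sum_of_subset_of_nonneg ?_ fun m _ _ => hf0 m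
          intro m hm
          rw [Finset.mem_image] at hm
          obtain ⟨n, hn, rfl⟩ := hm
          rw [Finset.mem_range] at *
          omega
        have h3 := Finset.sum_le_sum h1
        have h4 : (0 : ℝ) ≤ 2 * W := by positivity
        have h5 := mul_le_mul_of_nonneg_left h3 h4
        have h6 := mul_le_mul_of_nonneg_left hHH (by positivity : (0 : ℝ) ≤ N)
        linarith
    _ = (η / 8) * h ^ 2 * N' + N * (η / 2 * H ^ 2) := by
        rw [Finset.sum_const, Finset.card_range, nsmul_eq_mul]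
        congr 1
        field_simp
        ring
    _ ≤ (η / 8) * H ^ 2 * (2 * N) + N * (η / 2 * H ^ 2) := by
        gcongr
    _ ≤ η * H ^ 2 * N := by
        have : 0 ≤ η * H ^ 2 * N := by positivity
        nlinarith

end Pool.Agent.H21.LF
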