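import Pool.Agent.H21.LF.A2
import Pool.Agent.H21.LF.RAT
import Pool.Agent.H32.LF.Ent
import Pool.Agent.H39.LF.DEC
import Pool.Agent.H33.LF.PE
import Pool.Agent.H91.LF.CoreMain
import Pool.Agent.H28.LFP.CPMain
import Pool.Agent.H28.LF.UC
import Pool.Agent.H12.LF.UA
import Pool.Agent.H12.LF.UB
import Pool.Agent.H42.LF.UM
import Pool.Agent.H34.LF.LAMP
import Pool.Agent.H92.LF.Muau
import Pool.Agent.H66.LF.IND
import Pool.Agent.H67.LF.Sup
import Pool.Agent.H32.LF.Mufp

/-!
Assembly of the project LF (with the prime upgrade), from the module KAT.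
-/

set_option autoImplicit false

namespace Pool.Agent.H21.LF

open Pool.Agent.H91.LF

theorem fin_main (hk : StatementKAT) : Pool.Agent.H32.LF.StatementMUFPn := by
  have hSUP : StatementSUP := Pool.Agent.H67.LF.sup_main hk rat_main
  have hA2 : StatementA2 := a2_main hSUP
  have hUC : StatementUC := Pool.Agent.H28.LF.uc_main hA2
  have hUM : StatementUM :=
    Pool.Agent.H42.LF.um_main Pool.Agent.H12.LF.ua_main Pool.Agent.H12.LF.ub_main hUC
  have hDEC : StatementDEC := Pool.Agent.H39.LF.dec_main Pool.Agent.H32.LF.ent_main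
  have hCORE : StatementCORE := Pool.Agent.H91.LF.core_main hDEC Pool.Agent.H33.LF.pe_main
  have hCP : StatementCP := Pool.Agent.H28.LFP.cp_main hCORE
  have hLAMP : StatementLAMP := Pool.Agent.H34.LF.lamp_main hUM hCP
  exact Pool.Agent.H32.LF.mufp_clean hLAMP Pool.Agent.H92.LF.muau_main Pool.Agent.H66.LF.ind_main

end Pool.Agent.H21.LF
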