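import Pool.Agent.H28.LF.T1
import Pool.Agent.H67.AG.T3

/-!
Row STX (project LF, `MP_c59857_nt`): the inequality of `Pool.Agent.H85.GU.star` for measure
preserving systems.
-/

set_option autoImplicit false

open MeasureTheory ProbabilityTheory Filter Topology Finset
open scoped ENNReal

namespace Pool.Agent.H21.LF

open Pool.Agent.H28.LF
open Pool.Agent.H67.AG (avgP ul Inv)
open Pool.Agent.H24.T2 (Pset)

/-- the averages along the primes of the cosines -/
noncomputable def gm (d m : ℕ) (x : ℝ) : ℝ :=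
  avgP 2 m fun p => Real.cos (2 * Real.pi * (x * ((p * d : ℕ) : ℝ)))

lemma avg_abs_le (m : ℕ) (F : ℕ → ℝ) (hF : ∀ p, |F p| ≤ 1) : |avgP 2 m F| ≤ 1 := by
  unfold avgP
  rw [abs_div, Nat.abs_cast]
  have h : |∑ p ∈ Pset 2 m, F p| ≤ ((Pset 2 m).card : ℝ) := by
    refine (abs_sum_le_sum_abs _ _).trans ?_
    calc ∑ p ∈ Pset 2 m, |F p| ≤ ∑ p ∈ Pset 2 m, (1 : ℝ) := sum_le_sum fun p _ => hF p
      _ = ((Pset 2 m).card : ℝ) := by simp
  exact div_le_one_of_le₀ h (Nat.cast_nonneg _)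

lemma gm_abs_le (d m : ℕ) (x : ℝ) : |gm d m x| ≤ 1 :=
  avg_abs_le m _ fun _ => Real.abs_cos_le_one _

lemma gm_cont (d m : ℕ) : Continuous (gm d m) := by
  unfold gm avgP
  fun_prop

/-- the complex exponential is a cosine -/
lemma cc_eq_cos (r : ℕ) [NeZero r] (a d : ℕ) :
    Pool.Agent.H85.GU.cc r (a : ZMod r) d =
      ∑ b : (ZMod r)ˣ, Real.cos (2 * Real.pi * (((a * d : ℕ) : ℝ) * (b : ZMod r).val / r)) := by
  unfold Pool.Agent.H85.GU.cc
  refine sum_congr rfl fun b _ => ?_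
  have h1 : ((a : ZMod r) * (b : ZMod r) * (d : ZMod r)) =
      (((a * d * (b : ZMod r).val : ℕ) : ℤ) : ZMod r) := by
    push_cast
    rw [ZMod.natCast_zmod_val]
    ring
  rw [h1, ZMod.stdAddChar_coe]
  have h2 : (2 * (Real.pi : ℂ) * Complex.I * (((a * d * (b : ZMod r).val : ℕ) : ℤ) : ℂ) / (r : ℂ)) =
      ((2 * Real.pi * (((a * d : ℕ) : ℝ) * (b : ZMod r).val / r) : ℝ) : ℂ) * Complex.I := by
    push_cast
    ring
  rw [h2, Complex.exp_ofReal_mul_I_re]

lemma gm_tendsto_rat (hR : T_EXR) (r : ℕ) [NeZero r] (a d : ℕ) :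
    Tendsto (fun m => gm d m ((a : ℝ) / r)) atTop
      (𝓝 (Pool.Agent.H85.GU.cc r (a : ZMod r) d / (Fintype.card (ZMod r)ˣ : ℝ))) := by
  have h := hR r (a * d)
  rw [cc_eq_cos]
  refine h.congr fun m => ?_
  unfold gm
  congr 1
  funext p
  congr 1
  push_cast
  ring

lemma gm_tendsto_irr (hI : T_EXI) (x : ℝ) (hx : Irrational x) (d : ℕ) (hd : 0 < d) :
    Tendsto (fun m => gm d m x) atTop (𝓝 0) := by
  have h := hI (x * d) (hx.mul_natCast (by omega))
  refine h.congr fun m => ?_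
  unfold gm
  congr 1
  funext p
  congr 1
  push_cast
  ring

/-- the limit -/
noncomputable def Ld (d : ℕ) (x : ℝ) : ℝ := limUnder atTop fun m => gm d m x

lemma exists_rat (x : ℝ) (hx : 0 ≤ x) (hq : ¬ Irrational x) :
    ∃ a r : ℕ, 0 < r ∧ x = (a : ℝ) / r := by
  unfold Irrational at hq
  push Not at hq
  obtain ⟨q, rfl⟩ := hq
  have hq0 : 0 ≤ q := by exact_mod_cast hx
  refine ⟨q.num.toNat, q.den, q.pos, ?_⟩
  have h1 : (0 : ℤ) ≤ q.num := Rat.num_nonneg.2 hq0
  have h2 : ((q.num.toNat : ℕ) : ℤ) = q.num := Int.toNat_of_nonneg h1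
  have h3 : ((q.num.toNat : ℕ) : ℝ) = ((q.num : ℤ) : ℝ) := by exact_mod_cast congrArg (Int.cast : ℤ → ℝ) h2
  rw [h3]
  exact Rat.cast_def q

lemma gm_tendsto (hI : T_EXI) (hR : T_EXR) (d : ℕ) (hd : 0 < d) (x : ℝ) (hx : 0 ≤ x) :
    Tendsto (fun m => gm d m x) atTop (𝓝 (Ld d x)) := by
  by_cases hq : Irrational x
  · have h := gm_tendsto_irr hI x hq d hd
    unfold Ld
    rw [h.limUnder_eq]
    exact h
  · obtain ⟨a, r, hr, rfl⟩ := exists_rat x hx hq
    have : NeZero r := ⟨hr.ne'⟩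
    have h := gm_tendsto_rat hR r a d
    unfold Ld
    rw [h.limUnder_eq]
    exact h

lemma Ld_abs_le (hI : T_EXI) (hR : T_EXR) (d : ℕ) (hd : 0 < d) (x : ℝ) (hx : 0 ≤ x) :
    |Ld d x| ≤ 1 :=
  le_of_tendsto' (gm_tendsto hI hR d hd x hx).abs fun m => gm_abs_le d m x

open Pool.Agent.H85.GU in
/-- the sums with the weights -/
noncomputable def SX (A X : ℕ) (x : ℝ) : ℝ := 2 * ∑ d ∈ Icc 1 X, w A d * Ld d x

lemma sum_shift (F : ℕ → ℝ) (n : ℕ) : ∑ d ∈ Icc 1 n, F d = ∑ k ∈ range n, F (k + 1) := by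
  induction n with
  | zero => simp
  | succ n ih => rw [Finset.sum_Icc_succ_top (by omega), ih, sum_range_succ]

open Pool.Agent.H85.GU in
lemma summable_w (A : ℕ) : Summable fun k : ℕ => w A (k + 1) := by
  refine summable_of_sum_range_le (c := 2 * Real.sqrt A) (fun k => w_nonneg A (Nat.succ_pos k))
    fun n => ?_
  have h := sum_w_le A n
  rw [sum_shift] at h
  exact h

open Pool.Agent.H85.GU in
lemma SX_abs_le (hI : T_EXI) (hR : T_EXR) (A X : ℕ) (x : ℝ) (hx : 0 ≤ x) :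
    |SX A X x| ≤ 4 * Real.sqrt A := by
  unfold SX
  rw [abs_mul, abs_of_nonneg (by norm_num : (0 : ℝ) ≤ 2)]
  have h1 : |∑ d ∈ Icc 1 X, w A d * Ld d x| ≤ ∑ d ∈ Icc 1 X, w A d := by
    refine (abs_sum_le_sum_abs _ _).trans (sum_le_sum fun d hd => ?_)
    have hd0 : 0 < d := (mem_Icc.1 hd).1
    rw [abs_mul, abs_of_nonneg (w_nonneg A hd0)]
    have := Ld_abs_le hI hR d hd0 x hx
    nlinarith [w_nonneg A hd0]
  have h2 := sum_w_le A X
  linarith

open Pool.Agent.H85.GU in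
/-- the sum of the series -/
noncomputable def SS (A : ℕ) (x : ℝ) : ℝ := 2 * ∑' k : ℕ, w A (k + 1) * Ld (k + 1) x

open Pool.Agent.H85.GU in
lemma SX_tendsto (hI : T_EXI) (hR : T_EXR) (A : ℕ) (x : ℝ) (hx : 0 ≤ x) :
    Tendsto (fun X => SX A X x) atTop (𝓝 (SS A x)) := by
  have hs : Summable fun k : ℕ => w A (k + 1) * Ld (k + 1) x := by
    refine Summable.of_norm_bounded (summable_w A) fun k => ?_
    rw [Real.norm_eq_abs, abs_mul, abs_of_nonneg (w_nonneg A (Nat.succ_pos k))]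
    have := Ld_abs_le hI hR (k + 1) (Nat.succ_pos k) x hx
    nlinarith [w_nonneg A (Nat.succ_pos k)]
  have h := hs.hasSum.tendsto_sum_nat
  unfold SS
  refine (h.const_mul 2).congr fun X => ?_
  unfold SX
  rw [sum_shift]

open Pool.Agent.H85.GU in
lemma SS_le_irr (hI : T_EXI) (hR : T_EXR) (A : ℕ) (x : ℝ) (hx : 0 ≤ x) (hq : Irrational x) :
    SS A x ≤ 1 / Real.sqrt A := by
  have h0 : ∀ X, SX A X x = 0 := by
    intro X
    unfold SX
    have : ∑ d ∈ Icc 1 X, w A d * Ld d x = 0 := by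
      refine sum_eq_zero fun d hd => ?_
      have hd0 : 0 < d := (mem_Icc.1 hd).1
      have : Ld d x = 0 := (gm_tendsto_irr hI x hq d hd0).limUnder_eq
      rw [this, mul_zero]
    rw [this, mul_zero]
  have h := SX_tendsto hI hR A x hx
  have h2 : SS A x = 0 := tendsto_nhds_unique (h.congr h0) tendsto_const_nhds |>.symm ▸ rfl
  rw [h2]
  positivity

open Pool.Agent.H85.GU in
lemma SS_le_rat (hI : T_EXI) (hR : T_EXR) (A : ℕ) (hA : 0 < A) (a r : ℕ) (hr : 0 < r)
    (ha : 0 < a) (har : a < r) : SS A ((a : ℝ) / r) ≤ 1 / Real.sqrt A := by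
  have : NeZero r := ⟨hr.ne'⟩
  have hx : (0 : ℝ) ≤ (a : ℝ) / r := by positivity
  have haz : (a : ZMod r) ≠ 0 := by
    intro h
    rw [ZMod.natCast_eq_zero_iff] at h
    exact absurd (Nat.le_of_dvd ha h) (by omega)
  set ct : ℝ := (Fintype.card (ZMod r)ˣ : ℝ) with hc
  have hc0 : 0 < ct := by
    rw [hc]
    exact_mod_cast Fintype.card_pos
  have hL : ∀ d, Ld d ((a : ℝ) / r) = cc r (a : ZMod r) d / ct := fun d =>
    (gm_tendsto_rat hR r a d).limUnder_eq
  have hS : ∀ M, SX A (r * M) ((a : ℝ) / r) ≤ V A 0 + 2 * TT r (a : ZMod r) M / ct := by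
    intro M
    have h := mult_le r haz hA M
    unfold SX
    have e : 2 * ∑ d ∈ Icc 1 (r * M), w A d * Ld d ((a : ℝ) / r) =
        (2 * ∑ d ∈ Icc 1 (r * M), w A d * cc r (a : ZMod r) d) / ct := by
      rw [mul_div_assoc, sum_div]
      congr 1
      refine sum_congr rfl fun d _ => ?_
      rw [hL]
      ring
    rw [e, div_le_iff₀ hc0]
    have e2 : (V A 0 + 2 * TT r (a : ZMod r) M / ct) * ct = V A 0 * ct + 2 * TT r (a : ZMod r) M := by
      field_simp
    rw [e2]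
    exact h
  have hM : Tendsto (fun M : ℕ => r * M) atTop atTop :=
    tendsto_id.const_mul_atTop' hr
  have h1 := (SX_tendsto hI hR A _ hx).comp hM
  have h2 : Tendsto (fun M => V A 0 + 2 * TT r (a : ZMod r) M / ct) atTop
      (𝓝 (V A 0 + 2 * (Zlim * Ja (a : ZMod r).val r) / ct)) :=
    tendsto_const_nhds.add (((TT_tendsto r haz).const_mul 2).div_const ct)
  have h3 := le_of_tendsto_of_tendsto' h1 h2 hS
  have h4 : 2 * (Zlim * Ja (a : ZMod r).val r) / ct ≤ 0 := by
    have := lim_nonpos r (a : ZMod r)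
    exact div_nonpos_of_nonpos_of_nonneg (by linarith) hc0.le
  have h5 : V A 0 = 1 / Real.sqrt A := by
    unfold V
    simp
  linarith

open Pool.Agent.H85.GU in
lemma SS_le_zero (hI : T_EXI) (hR : T_EXR) (A : ℕ) (x : ℝ) (hx : 0 ≤ x) :
    SS A x ≤ 4 * Real.sqrt A :=
  le_of_tendsto' (SX_tendsto hI hR A x hx) fun X =>
    (le_abs_self _).trans (SX_abs_le hI hR A X x hx)

lemma int_gm (Ω : Type) [MeasurableSpace Ω] (P : Measure Ω) (T : Ω ≃ᵐ Ω) (f : Ω → ℝ)
    (ν : Measure (Set.Ico (0 : ℝ) 1)) [IsFiniteMeasure ν]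
    (hν : ∀ n : ℕ, ∫ ω, f ω * f (T^[n] ω) ∂P =
      ∫ x, Real.cos (2 * Real.pi * ((x : ℝ) * n)) ∂ν) (d m : ℕ) :
    (avgP 2 m fun p => ∫ ω in Set.univ, f ω * f (T^[p * d] ω) ∂P) =
      ∫ x, gm d m (x : ℝ) ∂ν := by
  have e : (fun p => ∫ ω in Set.univ, f ω * f (T^[p * d] ω) ∂P) =
      fun p => ∫ x, Real.cos (2 * Real.pi * ((x : ℝ) * ((p * d : ℕ) : ℝ))) ∂ν := by
    funext p
    rw [Measure.restrict_univ]
    exact hν (p * d)
  rw [e]
  unfold gm avgP
  rw [integral_div, integral_finsetSum]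
  intro p _
  refine Integrable.of_bound (C := 1) ?_ ?_
  · exact (Real.continuous_cos.comp (by fun_prop)).aestronglyMeasurable
  · exact Eventually.of_forall fun x => by
      rw [Real.norm_eq_abs]
      exact Real.abs_cos_le_one _

theorem pf_STX (hS : T_SPM) (hI : T_EXI) (hR : T_EXR) (hC : T_CDB)
    (hU : Pool.Agent.H67.AG.T_UL) (_hN : Pool.Agent.H67.AG.T_PN) : T_STX := by
  intro Ω _ P _ T U f D A hT hUa hf hf01 hD hA
  obtain ⟨ν, hνf, hν, hν0⟩ := hS Ω P T f hT hf (fun ω => by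
    rw [abs_of_nonneg (hf01 ω).1]
    exact (hf01 ω).2)
  -- measurability
  have hgmm : ∀ d m, Measurable fun x : Set.Ico (0 : ℝ) 1 => gm d m (x : ℝ) := fun d m =>
    ((gm_cont d m).measurable).comp measurable_subtype_coe
  have hLm : ∀ d, 0 < d → Measurable fun x : Set.Ico (0 : ℝ) 1 => Ld d (x : ℝ) := fun d hd =>
    measurable_of_tendsto_metrizable (hgmm d)
      (tendsto_pi_nhds.2 fun x => gm_tendsto hI hR d hd (x : ℝ) x.2.1)
  have hLi : ∀ d, 0 < d → Integrable (fun x : Set.Ico (0 : ℝ) 1 => Ld d (x : ℝ)) ν := fun d hd =>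
    Integrable.of_bound (C := 1) (hLm d hd).aestronglyMeasurable
      (Eventually.of_forall fun x => by
        rw [Real.norm_eq_abs]
        exact Ld_abs_le hI hR d hd (x : ℝ) x.2.1)
  -- the correlations
  have hCd : ∀ d, 0 < d → Cd U P T f Set.univ d = ∫ x, Ld d (x : ℝ) ∂ν := by
    intro d hd
    have h1 : Tendsto (fun m => ∫ x, gm d m ((x : Set.Ico (0 : ℝ) 1) : ℝ) ∂ν) atTop
        (𝓝 (∫ x, Ld d ((x : Set.Ico (0 : ℝ) 1) : ℝ) ∂ν)) := by
      refine tendsto_integral_of_dominated_convergence (fun _ => (1 : ℝ))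
        (fun m => (hgmm d m).aestronglyMeasurable) (integrable_const 1) (fun m => ?_) ?_
      · exact Eventually.of_forall fun x => by
          rw [Real.norm_eq_abs]
          exact gm_abs_le d m _
      · exact Eventually.of_forall fun x => gm_tendsto hI hR d hd (x : ℝ) x.2.1
    have h2 : (fun m => avgP 2 m fun p => ∫ ω in Set.univ, f ω * f (T^[p * d] ω) ∂P) =
        fun m => ∫ x, gm d m ((x : Set.Ico (0 : ℝ) 1) : ℝ) ∂ν := by
      funext m
      exact int_gm Ω P T f ν hν d m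
    unfold Cd
    have h3 : Tendsto (fun m => avgP 2 m fun p => ∫ ω in Set.univ, f ω * f (T^[p * d] ω) ∂P)
        (U : Filter ℕ) (𝓝 (∫ x, Ld d ((x : Set.Ico (0 : ℝ) 1) : ℝ) ∂ν)) := by
      rw [h2]
      exact h1.mono_left hUa
    have hb : ∃ C, ∀ m, |avgP 2 m fun p => ∫ ω in Set.univ, f ω * f (T^[p * d] ω) ∂P| ≤ C := by
      refine ⟨1, fun m => avg_abs_le m _ fun p => ?_⟩
      rw [Measure.restrict_univ]
      refine (abs_integral_le_integral_abs).trans ?_
      have h5 : ∀ ω, |f ω * f (T^[p * d] ω)| ≤ 1 := fun ω => by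
        rw [abs_of_nonneg (mul_nonneg (hf01 _).1 (hf01 _).1)]
        exact mul_le_one₀ (hf01 _).2 (hf01 _).1 (hf01 _).2
      calc ∫ ω, |f ω * f (T^[p * d] ω)| ∂P ≤ ∫ _ω, (1 : ℝ) ∂P := by
            refine integral_mono_of_nonneg (Eventually.of_forall fun ω => abs_nonneg _)
              (integrable_const 1) (Eventually.of_forall h5)
        _ = 1 := by simp
    exact tendsto_nhds_unique ((hU U).1 _ hb) h3
  have hCn : ∀ d, 0 ≤ Cd U P T f Set.univ d := fun d =>
    ((hC Ω P T U Set.univ d hT hUa MeasurableSet.univ).1 f hf hf01).1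
  -- the comparison of the weights
  have hw : ∀ X, D ≤ X → Pool.Agent.H85.GU.w A D * (2 * ∑ d ∈ Icc 1 D, Cd U P T f Set.univ d) ≤
      ∫ x, SX A X ((x : Set.Ico (0 : ℝ) 1) : ℝ) ∂ν := by
    intro X hX
    have e : ∫ x, SX A X ((x : Set.Ico (0 : ℝ) 1) : ℝ) ∂ν =
        2 * ∑ d ∈ Icc 1 X, Pool.Agent.H85.GU.w A d * Cd U P T f Set.univ d := by
      unfold SX
      rw [integral_const_mul, integral_finsetSum]
      · congr 1
        refine sum_congr rfl fun d hd => ?_
        rw [integral_const_mul, hCd d (mem_Icc.1 hd).1]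
      · intro d hd
        exact (hLi d (mem_Icc.1 hd).1).const_mul _
    rw [e]
    have h1 : Pool.Agent.H85.GU.w A D * ∑ d ∈ Icc 1 D, Cd U P T f Set.univ d ≤
        ∑ d ∈ Icc 1 D, Pool.Agent.H85.GU.w A d * Cd U P T f Set.univ d := by
      rw [mul_sum]
      refine sum_le_sum fun d hd => ?_
      exact mul_le_mul_of_nonneg_right
        (Pool.Agent.H85.GU.w_antitone A (mem_Icc.1 hd).1 (mem_Icc.1 hd).2) (hCn d)
    have h2 : ∑ d ∈ Icc 1 D, Pool.Agent.H85.GU.w A d * Cd U P T f Set.univ d ≤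
        ∑ d ∈ Icc 1 X, Pool.Agent.H85.GU.w A d * Cd U P T f Set.univ d := by
      refine sum_le_sum_of_subset_of_nonneg (Icc_subset_Icc_right hX) fun d hd _ => ?_
      exact mul_nonneg (Pool.Agent.H85.GU.w_nonneg A (mem_Icc.1 hd).1) (hCn d)
    linarith
  -- the limit
  have hSXm : ∀ X, Measurable fun x : Set.Ico (0 : ℝ) 1 => SX A X (x : ℝ) := by
    intro X
    unfold SX
    refine Measurable.const_mul (Finset.measurable_fun_sum _ fun d hd => ?_) 2
    exact (hLm d (mem_Icc.1 hd).1).const_mul _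
  have hlim : Tendsto (fun X => ∫ x, SX A X ((x : Set.Ico (0 : ℝ) 1) : ℝ) ∂ν) atTop
      (𝓝 (∫ x, SS A ((x : Set.Ico (0 : ℝ) 1) : ℝ) ∂ν)) := by
    refine tendsto_integral_of_dominated_convergence (fun _ => 4 * Real.sqrt A)
      (fun X => (hSXm X).aestronglyMeasurable) (integrable_const _) (fun X => ?_) ?_
    · exact Eventually.of_forall fun x => by
        rw [Real.norm_eq_abs]
        exact SX_abs_le hI hR A X (x : ℝ) x.2.1
    · exact Eventually.of_forall fun x => SX_tendsto hI hR A (x : ℝ) x.2.1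
  have hmain : Pool.Agent.H85.GU.w A D * (2 * ∑ d ∈ Icc 1 D, Cd U P T f Set.univ d) ≤
      ∫ x, SS A ((x : Set.Ico (0 : ℝ) 1) : ℝ) ∂ν :=
    ge_of_tendsto hlim (eventually_atTop.2 ⟨D, hw⟩)
  -- the bound of the integral
  set Z : Set (Set.Ico (0 : ℝ) 1) := {x | (x : ℝ) = 0} with hZ
  have hZm : MeasurableSet Z := measurable_subtype_coe (measurableSet_singleton (0 : ℝ))
  have hpt : ∀ x : Set.Ico (0 : ℝ) 1, SS A (x : ℝ) ≤
      4 * Real.sqrt A * Z.indicator (fun _ => (1 : ℝ)) x + 1 / Real.sqrt A := by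
    intro x
    by_cases hx0 : (x : ℝ) = 0
    · have : x ∈ Z := hx0
      rw [Set.indicator_of_mem this]
      have h1 := SS_le_zero hI hR A (x : ℝ) x.2.1
      have h2 : (0 : ℝ) ≤ 1 / Real.sqrt A := by positivity
      linarith
    · have : x ∉ Z := hx0
      rw [Set.indicator_of_notMem this, mul_zero, zero_add]
      by_cases hq : Irrational (x : ℝ)
      · exact SS_le_irr hI hR A (x : ℝ) x.2.1 hq
      · obtain ⟨a, r, hr, hxe⟩ := exists_rat (x : ℝ) x.2.1 hq
        have hr' : (0 : ℝ) < r := by exact_mod_cast hr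
        have ha : 0 < a := by
          rcases Nat.eq_zero_or_pos a with rfl | h
          · exact absurd (by rw [hxe]; simp) hx0
          · exact h
        have har : a < r := by
          have h1 : (a : ℝ) / r < 1 := hxe ▸ x.2.2
          rw [div_lt_one hr'] at h1
          exact_mod_cast h1
        rw [hxe]
        exact SS_le_rat hI hR A hA a r hr ha har
  have hSSm : Measurable fun x : Set.Ico (0 : ℝ) 1 => SS A (x : ℝ) :=
    measurable_of_tendsto_metrizable hSXm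
      (tendsto_pi_nhds.2 fun x => SX_tendsto hI hR A (x : ℝ) x.2.1)
  have hSSi : Integrable (fun x : Set.Ico (0 : ℝ) 1 => SS A (x : ℝ)) ν := by
    refine Integrable.of_bound (C := 4 * Real.sqrt A) hSSm.aestronglyMeasurable
      (Eventually.of_forall fun x => ?_)
    rw [Real.norm_eq_abs]
    exact le_of_tendsto' (SX_tendsto hI hR A (x : ℝ) x.2.1).abs fun X =>
      SX_abs_le hI hR A X (x : ℝ) x.2.1
  have hint : ∫ x, SS A ((x : Set.Ico (0 : ℝ) 1) : ℝ) ∂ν ≤
      4 * Real.sqrt A * ν.real Z + 1 / Real.sqrt A * ν.real Set.univ := by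
    have h1 : ∫ x, SS A ((x : Set.Ico (0 : ℝ) 1) : ℝ) ∂ν ≤
        ∫ x, (4 * Real.sqrt A * Z.indicator (fun _ => (1 : ℝ)) x + 1 / Real.sqrt A) ∂ν := by
      refine integral_mono hSSi ?_ hpt
      exact (((integrable_const (1 : ℝ)).indicator hZm).const_mul _).add (integrable_const _)
    refine h1.trans (le_of_eq ?_)
    rw [integral_add (((integrable_const (1 : ℝ)).indicator hZm).const_mul _)
      (integrable_const _), integral_const_mul, integral_indicator hZm, integral_const]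
    simp only [integral_const, smul_eq_mul, mul_one]
    rw [Measure.real, Measure.restrict_apply MeasurableSet.univ, Set.univ_inter, Measure.real,
      Measure.real]
    ring
  have hZν : ν.real Z = ∫ ω, ((P[f | Inv T 1]) ω) ^ 2 ∂P := by
    rw [← hν0 1 one_pos]
    congr 1
    ext x
    simp only [hZ, Set.mem_ofPred_eq, Nat.cast_one, one_mul]
    constructor
    · intro h
      exact ⟨0, by rw [h]; simp⟩
    · rintro ⟨k, hk⟩
      have h1 := x.2.2
      rw [hk] at h1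
      have h2 : k < 1 := by exact_mod_cast h1
      have h3 : k = 0 := by omega
      rw [hk, h3]
      simp
  have hνu : ν.real Set.univ ≤ ∫ ω, f ω ∂P := by
    have h1 := hν 0
    simp only [Nat.cast_zero, mul_zero, Real.cos_zero, integral_const, smul_eq_mul, mul_one,
      Function.iterate_zero, id_eq] at h1
    rw [← h1]
    refine integral_mono_of_nonneg
      (Eventually.of_forall fun ω => mul_nonneg (hf01 ω).1 (hf01 ω).1) ?_
      (Eventually.of_forall fun ω => ?_)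
    · exact Integrable.of_bound (C := 1) hf.aestronglyMeasurable
        (Eventually.of_forall fun ω => by
          rw [Real.norm_eq_abs, abs_of_nonneg (hf01 ω).1]
          exact (hf01 ω).2)
    · exact mul_le_of_le_one_right (hf01 ω).1 (hf01 ω).2
  have hfin : 4 * Real.sqrt A * ν.real Z + 1 / Real.sqrt A * ν.real Set.univ ≤
      4 * Real.sqrt A * ∫ ω, ((P[f | Inv T 1]) ω) ^ 2 ∂P + 1 / Real.sqrt A * ∫ ω, f ω ∂P := by
    rw [hZν]
    have : 1 / Real.sqrt A * ν.real Set.univ ≤ 1 / Real.sqrt A * ∫ ω, f ω ∂P :=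
      mul_le_mul_of_nonneg_left hνu (by positivity)
    linarith
  have hwD : Pool.Agent.H85.GU.w A D = 1 / Real.sqrt D - 1 / Real.sqrt ((D : ℝ) + A) := rfl
  rw [hwD] at hmain
  exact hmain.trans (hint.trans hfin)

end Pool.Agent.H21.LF
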